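import Pool.Agent.BED.Stmts

set_option autoImplicit false

/-! # Row KIS: the solution operator preserves the invariant functions -/

namespace Pool.Agent.BED.H67

open Set Filter Topology MeasureTheory
open scoped InnerProductSpace ENNReal
open Pool.Agent.BE01

theorem kis (syg : SygStmt) (sgw : SgwStmt) : KisStmt := by
  intro d Ω G S Z hΩ hG hD h hh g hg
  obtain ⟨u', G', h1, h2, h3⟩ := syg d Ω g (S h) (Z h) hΩ (hG g hg) (hD.1 h)
  have h4 := sgw d Ω g h h (Z h) G' hΩ (hG g hg) (hh g hg).symm h3 (hD.2.2.1 h)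
  have h5 : u' = S h := hD.2.2.2.2 h u' G' h1 h4
  rw [h5] at h2
  exact h2.symm

end Pool.Agent.BED.H67
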